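import Pool.Agent.H642R2.MOPoly

/-!
# Man-optimal weakly stable matchings: instances with short lists
-/

namespace Pool.Agent.NPC.MO

/-- All preference lists but the one of woman `0` are short: the list of every man contains at most
five women and at most one proper tie, of at most three women; the list of every woman except
woman `0` contains at most four men, and its ties have at most three men. -/
def Short (I : Inst) : Prop :=
  (∀ l ∈ I.1, l.flatten.length ≤ 5 ∧ (∀ t ∈ l, t.length ≤ 3) ∧
    (l.filter (fun t => decide (2 ≤ t.length))).length ≤ 1) ∧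
  ∀ l ∈ I.2.tail, l.flatten.length ≤ 4 ∧ ∀ t ∈ l, t.length ≤ 3

theorem mlist_short (N C : ℕ) (φ : List Cl) (μ : ℕ) :
    (mlist N C φ μ).flatten.length ≤ 5 ∧ (∀ t ∈ mlist N C φ μ, t.length ≤ 3) ∧
      ((mlist N C φ μ).filter (fun t => decide (2 ≤ t.length))).length ≤ 1 := by
  unfold mlist br
  split_ifs <;> simp

theorem wlist_short (N C : ℕ) (φ : List Cl) (w : ℕ) (hw : w ≠ 0) :
    (wlist N C φ w).flatten.length ≤ 4 ∧ ∀ t ∈ wlist N C φ w, t.length ≤ 3 := by
  unfold wlist entr
  rw [if_neg hw]
  split_ifs <;> simp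

theorem short_red (φ : List Cl) : Short (red φ) := by
  refine ⟨fun l hl => ?_, fun l hl => ?_⟩
  · obtain ⟨μ, _, rfl⟩ := List.mem_map.1 hl
    exact mlist_short _ _ φ μ
  · have e : (red φ).2 = (List.range (k2 (3 * φ.length) φ.length + 1)).map
        (wlist (3 * φ.length) φ.length φ) := rfl
    rw [e, List.range_succ_eq_map, List.map_cons, List.tail_cons, List.map_map] at hl
    obtain ⟨w, _, rfl⟩ := List.mem_map.1 hl
    exact wlist_short _ _ φ _ (Nat.succ_ne_zero w)

/-- Existence of a man-optimal weakly stable matching is hard for instances with short lists. -/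
theorem hard_short : HardPr (fun I => IsSMTI I ∧ Short I) (fun I => ¬ ∃ M, ManOptimal I M) := by
  refine hardPr_SAT3b.trans poly_red ?_ ?_
  · rintro φ ⟨_, hb, hne⟩
    exact ⟨inst_ok (ok_of φ hb hne), short_red φ⟩
  · rintro φ ⟨_, hb, hne⟩
    exact correct (ok_of φ hb hne)

end Pool.Agent.NPC.MO
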