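import Pool.Agent.Y607.MO.A

/-!
# Man-optimal weakly stable matchings: recognising a man-optimal matching
-/

namespace Pool.Agent.NPC.MO

/-- `M` is a weakly stable matching in which all men but one are matched, and each matched man is
matched to his unique first choice (the first tie of his list contains his partner only). -/
def AlmostOptimal (I : Inst) (M : List (ℕ × ℕ)) : Prop :=
  WeaklyStable I M ∧ M.length + 1 = I.1.length ∧ ∀ p ∈ M, ∃ l, men I p.1 = [p.2] :: l

theorem mlist_first {N C : ℕ} {φ : List Cl} {μ : ℕ} (h : μ < k2 N C) :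
    ∃ l, mlist N C φ μ = [μ] :: l := by
  unfold mlist
  split_ifs with h0 h1 h2
  · subst h0; exact ⟨_, rfl⟩
  · exact ⟨_, rfl⟩
  · exact ⟨_, rfl⟩
  · exact ⟨_, rfl⟩

/-- If the formula is unsatisfiable then the identity matching is man-optimal. -/
theorem manOptimal_M0 {N C : ℕ} {φ : List Cl} (h : Ok N C φ) (hs : ¬ SAT3 φ) :
    ManOptimal (inst N C φ) (M0 N C) := by
  refine ⟨M0_stable h, ?_⟩
  intro M' hM' m w' hmw
  have hacc := hM'.1.1 _ hmw
  obtain ⟨hm, _⟩ := acceptable_le hacc
  by_cases hlt : m < k2 N C
  · refine ⟨m, mem_M0.2 ⟨hlt, rfl⟩, ?_⟩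
    rw [men_inst hm, (rank_self h hlt).1]
    omega
  · have : m = k2 N C := by omega
    subst this
    have := acceptable_last h hacc
    simp only at this
    subst this
    exact absurd (sat_of_matched h hM' hmw) hs

theorem almostOptimal_M0 {N C : ℕ} {φ : List Cl} (h : Ok N C φ) :
    AlmostOptimal (inst N C φ) (M0 N C) := by
  refine ⟨M0_stable h, ?_, ?_⟩
  · simp [M0, inst]
  · rintro ⟨m, w⟩ hp
    obtain ⟨hm, rfl⟩ := mem_M0.1 hp
    simp only
    rw [men_inst (by omega)]
    exact mlist_first hm

/-- the identity matching of the instance of a formula -/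
def mred (φ : List Cl) : List (ℕ × ℕ) := M0 (3 * φ.length) φ.length

theorem poly_mred : Poly mred := by
  have h : Poly (fun φ : List Cl => (List.range (k2 (3 * φ.length) φ.length)).map
      (fun a => (a, a))) :=
    Poly.map (F := fun _ a => (a, a)) upoly_k2.range (Poly.pair (Poly.snd Poly.id)
      (Poly.snd Poly.id))
  exact h

/-- Recognising a man-optimal weakly stable matching is hard, even for instances with short lists
and almost optimal matchings; on the instances produced, the given matching is man-optimal if some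
matching is. -/
theorem hard_verify : HardPr (fun p : Inst × List (ℕ × ℕ) => (IsSMTI p.1 ∧ Short p.1) ∧
    AlmostOptimal p.1 p.2 ∧ ((∃ M, ManOptimal p.1 M) → ManOptimal p.1 p.2))
    (fun p => ¬ ManOptimal p.1 p.2) := by
  refine hardPr_SAT3b.trans (f := fun φ => (red φ, mred φ)) (Poly.pair poly_red poly_mred) ?_ ?_
  · rintro φ ⟨_, hb, hne⟩
    have hok := ok_of φ hb hne
    refine ⟨⟨inst_ok hok, short_red φ⟩, almostOptimal_M0 hok, fun hM => ?_⟩
    exact manOptimal_M0 hok (fun hs => (correct hok).1 hs hM)
  · rintro φ ⟨_, hb, hne⟩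
    have hok := ok_of φ hb hne
    constructor
    · intro hs hM
      exact (correct hok).1 hs ⟨_, hM⟩
    · intro hM
      by_contra hs
      exact hM (manOptimal_M0 hok hs)

end Pool.Agent.NPC.MO
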