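import Pool.Agent.Y607.MO.B
import Pool.Agent.NPC.Dec

/-!
# Man-optimal weakly stable matchings: verification is in `coNP`
-/

namespace Pool.Agent.NPC.MO

/-- strict preference test -/
def ltb (l : List (List ℕ)) (b a : ℕ) : Bool :=
  l.zipIdx.any (fun p => decide (b ∈ p.1) &&
    l.zipIdx.all (fun q => decide (p.2 < q.2) || !decide (a ∈ q.1)))

theorem ltb_iff (l : List (List ℕ)) (b a : ℕ) : ltb l b a = true ↔ rank l b < rank l a := by
  simp only [ltb, List.any_eq_true, List.all_eq_true, Bool.and_eq_true, Bool.or_eq_true,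
    decide_eq_true_eq, Bool.not_eq_true', decide_eq_false_iff_not, Prod.exists, Prod.forall,
    List.mem_zipIdx_iff_getElem?]
  unfold rank
  constructor
  · rintro ⟨t, i, hi, hb, h⟩
    obtain ⟨hil, rfl⟩ := List.getElem?_eq_some_iff.1 hi
    have h1 : l.findIdx (fun t => decide (b ∈ t)) ≤ i := by
      by_contra hlt
      rw [not_le] at hlt
      have := List.not_of_lt_findIdx hlt
      simp [hb] at this
    have h2 : i < l.findIdx (fun t => decide (a ∈ t)) := by
      by_contra hle
      rw [not_lt] at hle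
      have h3 : l.findIdx (fun t => decide (a ∈ t)) < l.length := by omega
      have h4 := List.findIdx_getElem (w := h3)
      rcases h _ _ (List.getElem?_eq_getElem h3) with h5 | h5
      · omega
      · exact h5 (by simpa using h4)
    omega
  · intro h
    have h3 : l.findIdx (fun t => decide (b ∈ t)) < l.length :=
      lt_of_lt_of_le h List.findIdx_le_length
    refine ⟨_, _, List.getElem?_eq_getElem h3, ?_, ?_⟩
    · have := List.findIdx_getElem (w := h3)
      simpa using this
    · intro t j hj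
      by_cases hlt : l.findIdx (fun t => decide (b ∈ t)) < j
      · exact Or.inl hlt
      · right
        obtain ⟨hjl, rfl⟩ := List.getElem?_eq_some_iff.1 hj
        have h4 : j < l.findIdx (fun t => decide (a ∈ t)) := by omega
        have := List.not_of_lt_findIdx h4
        simpa using this

/-- test of absence of repetitions -/
def ndb (l : List ℕ) : Bool :=
  l.zipIdx.all (fun p => l.zipIdx.all (fun q => decide (p.2 = q.2 ∨ ¬ p.1 = q.1)))

theorem ndb_iff (l : List ℕ) : ndb l = true ↔ l.Nodup := by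
  simp only [ndb, List.all_eq_true, decide_eq_true_eq, Prod.forall,
    List.mem_zipIdx_iff_getElem?]
  rw [List.nodup_iff_getElem?_ne_getElem?]
  constructor
  · intro h i j hij hj he
    have h1 : l[j]? = some l[j] := List.getElem?_eq_getElem hj
    rcases h l[j] i (by rw [he, h1]) l[j] j h1 with h2 | h2
    · omega
    · exact h2 rfl
  · intro h a i hi b j hj
    by_cases hij : i = j
    · exact Or.inl hij
    · refine Or.inr ?_
      rintro rfl
      rcases lt_or_gt_of_ne hij with h1 | h1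
      · exact h i j h1 (List.getElem?_eq_some_iff.1 hj).1 (by rw [hi, hj])
      · exact h j i h1 (List.getElem?_eq_some_iff.1 hi).1 (by rw [hi, hj])

/-- acceptability test -/
def accb (I : Inst) (m w : ℕ) : Bool :=
  decide (w ∈ (men I m).flatten) && decide (m ∈ (women I w).flatten)

theorem accb_iff (I : Inst) (m w : ℕ) : accb I m w = true ↔ Acceptable I m w := by
  simp only [accb, Acceptable, Bool.and_eq_true, decide_eq_true_eq]

/-- test whether a pair blocks -/
def blb (I : Inst) (M : List (ℕ × ℕ)) (m w : ℕ) : Bool :=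
  accb I m w && (M.all (fun q => !decide (q.1 = m) || ltb (men I m) w q.2) &&
    M.all (fun q => !decide (q.2 = w) || ltb (women I w) m q.1))

theorem blb_iff (I : Inst) (M : List (ℕ × ℕ)) (m w : ℕ) : blb I M m w = true ↔ Blocks I M m w := by
  simp only [blb, Blocks, Bool.and_eq_true, accb_iff, List.all_eq_true, Bool.or_eq_true,
    Bool.not_eq_true', decide_eq_false_iff_not, ltb_iff]
  constructor
  · rintro ⟨h1, h2, h3⟩
    refine ⟨h1, fun w' hw => ?_, fun m' hm => ?_⟩
    · rcases h2 _ hw with h | h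
      · exact absurd rfl h
      · exact h
    · rcases h3 _ hm with h | h
      · exact absurd rfl h
      · exact h
  · rintro ⟨h1, h2, h3⟩
    refine ⟨h1, fun q hq => ?_, fun q hq => ?_⟩
    · by_cases h : q.1 = m
      · right; subst h; exact h2 _ hq
      · exact Or.inl h
    · by_cases h : q.2 = w
      · right; subst h; exact h3 _ hq
      · exact Or.inl h

/-- test of weak stability -/
def wsb (I : Inst) (M : List (ℕ × ℕ)) : Bool :=
  M.all (fun q => accb I q.1 q.2) && (ndb (M.map Prod.fst) && (ndb (M.map Prod.snd) &&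
    (List.range I.1.length).all (fun m => (List.range I.2.length).all (fun w => !blb I M m w))))

theorem acc_lt {I : Inst} {m w : ℕ} (h : Acceptable I m w) : m < I.1.length ∧ w < I.2.length := by
  obtain ⟨h1, h2⟩ := h
  constructor
  · by_contra hm
    unfold men at h1
    rw [List.getD_eq_default _ _ (by omega)] at h1
    simp at h1
  · by_contra hm
    unfold women at h2
    rw [List.getD_eq_default _ _ (by omega)] at h2
    simp at h2

theorem wsb_iff (I : Inst) (M : List (ℕ × ℕ)) : wsb I M = true ↔ WeaklyStable I M := by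
  simp only [wsb, WeaklyStable, IsMatching, Bool.and_eq_true, List.all_eq_true, accb_iff, ndb_iff,
    List.mem_range, Bool.not_eq_true']
  constructor
  · rintro ⟨h1, h2, h3, h4⟩
    refine ⟨⟨h1, h2, h3⟩, fun m w hb => ?_⟩
    obtain ⟨hm, hw⟩ := acc_lt hb.1
    have := h4 m hm w hw
    rw [(blb_iff I M m w).2 hb] at this
    cases this
  · rintro ⟨⟨h1, h2, h3⟩, h4⟩
    refine ⟨h1, h2, h3, fun m _ w _ => ?_⟩
    rw [← Bool.not_eq_true, blb_iff]
    exact h4 m w

/-- the verifier: `M` is not weakly stable, or `M'` is weakly stable and some man prefers it -/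
def ver (x : (Inst × List (ℕ × ℕ)) × List (ℕ × ℕ)) : Bool :=
  !wsb x.1.1 x.1.2 || (wsb x.1.1 x.2 && x.2.any (fun q => x.1.2.all (fun r =>
    !decide (r.1 = q.1) || ltb (men x.1.1 q.1) q.2 r.2)))

theorem ver_iff (I : Inst) (M M' : List (ℕ × ℕ)) : ver ((I, M), M') = true ↔
    ¬ WeaklyStable I M ∨ (WeaklyStable I M' ∧ ∃ m w', (m, w') ∈ M' ∧
      ∀ w, (m, w) ∈ M → rank (men I m) w' < rank (men I m) w) := by
  simp only [ver, Bool.or_eq_true, Bool.not_eq_true', Bool.and_eq_true, List.any_eq_true,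
    List.all_eq_true, decide_eq_false_iff_not, ltb_iff, wsb_iff]
  rw [← Bool.not_eq_true, wsb_iff]
  refine or_congr Iff.rfl (and_congr Iff.rfl ?_)
  constructor
  · rintro ⟨q, hq, h⟩
    refine ⟨q.1, q.2, hq, fun w hw => ?_⟩
    rcases h _ hw with h | h
    · exact absurd rfl h
    · exact h
  · rintro ⟨m, w', hq, h⟩
    refine ⟨(m, w'), hq, fun r hr => ?_⟩
    by_cases he : r.1 = m
    · right; subst he; exact h _ hr
    · exact Or.inl he

theorem sz_acc {I : Inst} {m w : ℕ} (h : Acceptable I m w) : sz (m, w) ≤ sz I := by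
  have key : ∀ (L : List (List (List ℕ))) (i a : ℕ), a ∈ (L.getD i []).flatten → sz a < sz L := by
    intro L i a ha
    have hi : i < L.length := by
      by_contra hi
      rw [List.getD_eq_default _ _ (by omega)] at ha
      simp at ha
    rw [List.getD_eq_getElem _ _ hi] at ha
    obtain ⟨t, ht, hat⟩ := List.mem_flatten.1 ha
    exact (sz_le_of_mem hat).trans ((sz_le_of_mem ht).trans (sz_le_of_mem (List.getElem_mem hi)))
  have h1 := key _ _ _ h.1
  have h2 := key _ _ _ h.2
  have h3 : sz (m, w) = sz m + sz w + 1 := sz_pair m w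
  have h4 : sz I = sz I.1 + sz I.2 + 1 := sz_pair I.1 I.2
  omega

theorem sz_matching {I : Inst} {M : List (ℕ × ℕ)} (h : IsMatching I M) :
    sz M ≤ sz I * (sz I + 1) + 1 := by
  have h1 := sz_le_length_mul M (sz I) (fun q hq => sz_acc (h.1 q hq))
  have h2 : M.length ≤ sz I := by
    have h3 : (M.map Prod.fst).toFinset ⊆ Finset.range I.1.length := by
      intro m hm
      rw [List.mem_toFinset, List.mem_map] at hm
      obtain ⟨q, hq, rfl⟩ := hm
      exact Finset.mem_range.2 (acc_lt (h.1 q hq)).1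
    have h4 := Finset.card_le_card h3
    rw [List.toFinset_card_of_nodup h.2.1, Finset.card_range, List.length_map] at h4
    have h5 := length_lt_sz I.1
    have h6 : sz I = sz I.1 + sz I.2 + 1 := sz_pair I.1 I.2
    omega
  exact h1.trans (Nat.add_le_add_right (Nat.mul_le_mul_right _ h2) 1)

section

variable {α : Type} [TEnc α]

theorem poly_ltb {l : α → List (List ℕ)} {b a' : α → ℕ} (hl : Poly l) (hb : Poly b)
    (ha : Poly a') : Poly (fun x => ltb (l x) (b x) (a' x)) := by
  refine Poly.any (p := fun x (p : List ℕ × ℕ) => decide (b x ∈ p.1) &&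
    (l x).zipIdx.all (fun q => decide (p.2 < q.2) || !decide (a' x ∈ q.1))) (Poly.zipIdx hl) ?_
  refine Poly.and (Poly.decide_mem (hb.comp (Poly.fst Poly.id)) (Poly.fst (Poly.snd Poly.id))) ?_
  refine Poly.all (p := fun (x : α × (List ℕ × ℕ)) (q : List ℕ × ℕ) =>
    decide (x.2.2 < q.2) || !decide (a' x.1 ∈ q.1)) (Poly.zipIdx (hl.comp (Poly.fst Poly.id))) ?_
  exact Poly.or (Poly.decide_lt (Poly.snd (Poly.snd (Poly.fst Poly.id)))
      (Poly.snd (Poly.snd Poly.id)))
    (Poly.not (Poly.decide_mem ((ha.comp (Poly.fst Poly.id)).comp (Poly.fst Poly.id))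
      (Poly.fst (Poly.snd Poly.id))))

theorem poly_ndb {l : α → List ℕ} (hl : Poly l) :
    Poly (fun a => ndb (l a)) := by
  refine Poly.all (p := fun a (p : ℕ × ℕ) =>
    (l a).zipIdx.all (fun q => decide (p.2 = q.2 ∨ ¬ p.1 = q.1))) (Poly.zipIdx hl) ?_
  refine Poly.all (p := fun (x : α × (ℕ × ℕ)) (q : ℕ × ℕ) =>
    decide (x.2.2 = q.2 ∨ ¬ x.2.1 = q.1)) (Poly.zipIdx (hl.comp (Poly.fst Poly.id))) ?_
  exact Poly.decide_or (Poly.decide_eq (Poly.snd (Poly.snd (Poly.fst Poly.id)))
      (Poly.snd (Poly.snd Poly.id)))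
    (Poly.decide_not (Poly.decide_eq (Poly.fst (Poly.snd (Poly.fst Poly.id)))
      (Poly.fst (Poly.snd Poly.id))))

theorem poly_men {I : α → Inst} {m : α → ℕ} (hI : Poly I) (hm : Poly m) :
    Poly (fun a => men (I a) (m a)) := Poly.getD (Poly.fst hI) hm (Poly.const _)

theorem poly_women {I : α → Inst} {m : α → ℕ} (hI : Poly I) (hm : Poly m) :
    Poly (fun a => women (I a) (m a)) := Poly.getD (Poly.snd hI) hm (Poly.const _)

theorem poly_accb {I : α → Inst} {m w : α → ℕ} (hI : Poly I) (hm : Poly m) (hw : Poly w) :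
    Poly (fun a => accb (I a) (m a) (w a)) :=
  Poly.and (Poly.decide_mem hw (Poly.flatten (poly_men hI hm)))
    (Poly.decide_mem hm (Poly.flatten (poly_women hI hw)))

theorem poly_blb {I : α → Inst} {M : α → List (ℕ × ℕ)} {m w : α → ℕ} (hI : Poly I) (hM : Poly M)
    (hm : Poly m) (hw : Poly w) : Poly (fun a => blb (I a) (M a) (m a) (w a)) := by
  refine Poly.and (poly_accb hI hm hw) (Poly.and ?_ ?_)
  · refine Poly.all (p := fun a (q : ℕ × ℕ) => !decide (q.1 = m a) ||
      ltb (men (I a) (m a)) (w a) q.2) hM ?_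
    exact Poly.or (Poly.not (Poly.decide_eq (Poly.fst (Poly.snd Poly.id))
        (hm.comp (Poly.fst Poly.id))))
      (poly_ltb ((poly_men hI hm).comp (Poly.fst Poly.id)) (hw.comp (Poly.fst Poly.id))
        (Poly.snd (Poly.snd Poly.id)))
  · refine Poly.all (p := fun a (q : ℕ × ℕ) => !decide (q.2 = w a) ||
      ltb (women (I a) (w a)) (m a) q.1) hM ?_
    exact Poly.or (Poly.not (Poly.decide_eq (Poly.snd (Poly.snd Poly.id))
        (hw.comp (Poly.fst Poly.id))))
      (poly_ltb ((poly_women hI hw).comp (Poly.fst Poly.id)) (hm.comp (Poly.fst Poly.id))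
        (Poly.fst (Poly.snd Poly.id)))

theorem poly_wsb {I : α → Inst} {M : α → List (ℕ × ℕ)} (hI : Poly I) (hM : Poly M) :
    Poly (fun a => wsb (I a) (M a)) := by
  refine Poly.and ?_ (Poly.and (poly_ndb (Poly.map (F := fun _ q => q.1) hM
    (Poly.fst (Poly.snd Poly.id)))) (Poly.and (poly_ndb (Poly.map (F := fun _ q => q.2) hM
    (Poly.snd (Poly.snd Poly.id)))) ?_))
  · refine Poly.all (p := fun a (q : ℕ × ℕ) => accb (I a) q.1 q.2) hM ?_
    exact poly_accb (hI.comp (Poly.fst Poly.id)) (Poly.fst (Poly.snd Poly.id))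
      (Poly.snd (Poly.snd Poly.id))
  · refine Poly.all (p := fun a m => (List.range (I a).2.length).all
      (fun w => !blb (I a) (M a) m w)) (UPoly.range (UPoly.length (Poly.fst hI))) ?_
    refine Poly.all (p := fun (x : α × ℕ) w => !blb (I x.1) (M x.1) x.2 w)
      (UPoly.range (UPoly.length (Poly.snd (hI.comp (Poly.fst Poly.id))))) ?_
    exact Poly.not (poly_blb ((hI.comp (Poly.fst Poly.id)).comp (Poly.fst Poly.id))
      ((hM.comp (Poly.fst Poly.id)).comp (Poly.fst Poly.id)) (Poly.snd (Poly.fst Poly.id))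
      (Poly.snd Poly.id))

end

theorem poly_ver : Poly ver := by
  have hI : Poly (fun x : (Inst × List (ℕ × ℕ)) × List (ℕ × ℕ) => x.1.1) :=
    Poly.fst (Poly.fst Poly.id)
  have hM : Poly (fun x : (Inst × List (ℕ × ℕ)) × List (ℕ × ℕ) => x.1.2) :=
    Poly.snd (Poly.fst Poly.id)
  have hM' : Poly (fun x : (Inst × List (ℕ × ℕ)) × List (ℕ × ℕ) => x.2) := Poly.snd Poly.id
  refine Poly.or (Poly.not (poly_wsb hI hM)) (Poly.and (poly_wsb hI hM') ?_)
  refine Poly.any (p := fun (x : (Inst × List (ℕ × ℕ)) × List (ℕ × ℕ)) (q : ℕ × ℕ) =>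
    x.1.2.all (fun r => !decide (r.1 = q.1) || ltb (men x.1.1 q.1) q.2 r.2)) hM' ?_
  refine Poly.all (p := fun (y : ((Inst × List (ℕ × ℕ)) × List (ℕ × ℕ)) × (ℕ × ℕ)) (r : ℕ × ℕ) =>
    !decide (r.1 = y.2.1) || ltb (men y.1.1.1 y.2.1) y.2.2 r.2) (hM.comp (Poly.fst Poly.id)) ?_
  have hq : Poly (fun z : (((Inst × List (ℕ × ℕ)) × List (ℕ × ℕ)) × (ℕ × ℕ)) × (ℕ × ℕ) =>
    z.1.2) := Poly.snd (Poly.fst Poly.id)
  have hr : Poly (fun z : (((Inst × List (ℕ × ℕ)) × List (ℕ × ℕ)) × (ℕ × ℕ)) × (ℕ × ℕ) =>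
    z.2) := Poly.snd Poly.id
  exact Poly.or (Poly.not (Poly.decide_eq (Poly.fst hr) (Poly.fst hq)))
    (poly_ltb (poly_men ((hI.comp (Poly.fst Poly.id)).comp (Poly.fst Poly.id)) (Poly.fst hq))
      (Poly.snd hq) (Poly.snd hr))

/-- Recognising man-optimal weakly stable matchings is in `coNP`. -/
theorem mem_coNP : InCoNPP (fun p : Inst × List (ℕ × ℕ) => ManOptimal p.1 p.2) := by
  refine inCoNPP_of poly_ver (Polynomial.X * (Polynomial.X + 1) + 1) ?_
  rintro ⟨I, M⟩
  simp only [ver_iff]
  have hsz : sz I ≤ sz (I, M) := by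
    have : sz (I, M) = sz I + sz M + 1 := sz_pair I M
    omega
  have hbd : ∀ M', IsMatching I M' →
      sz M' ≤ (Polynomial.X * (Polynomial.X + 1) + 1 : Polynomial ℕ).eval (sz (I, M)) := by
    intro M' hM'
    simp only [Polynomial.eval_add, Polynomial.eval_mul, Polynomial.eval_X, Polynomial.eval_one]
    exact (sz_matching hM').trans (Nat.add_le_add_right (Nat.mul_le_mul hsz (by omega)) 1)
  constructor
  · intro h
    by_cases hM : WeaklyStable I M
    · unfold ManOptimal at h
      push Not at h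
      obtain ⟨M', hM', m, w', hmw, hno⟩ := h hM
      exact ⟨M', hbd M' hM'.1, Or.inr ⟨hM', m, w', hmw, hno⟩⟩
    · refine ⟨[], ?_, Or.inl hM⟩
      exact hbd [] ⟨by simp, by simp, by simp⟩
  · rintro ⟨M', _, h | ⟨hM', m, w', hmw, h⟩⟩ hopt
    · exact h hopt.1
    · obtain ⟨w, hw, hr⟩ := hopt.2 M' hM' m w' hmw
      have := h w hw
      omega

end Pool.Agent.NPC.MO
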